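import Pool.Agent.W278.EM.Stms
import Pool.Agent.Helper873.PartTwo

set_option autoImplicit false
open MeasureTheory Metric Filter
open scoped ComplexConjugate ENNReal Topology

namespace Pool.Agent.W918.EM.Neg

open Pool.Agent.Helper873.OneVar Pool.Agent.Helper873.Product Pool.Agent.Helper873.Pk
  Pool.Agent.Helper873.Block Pool.Agent.Helper873.Alg Pool.Agent.Helper873.Monomial
  Pool.Agent.Helper873.Cartan Pool.Agent.Helper873.NT Pool.Agent.Helper873.Embed
  Pool.Agent.Helper873.Zeta Pool.Agent.Helper873.Multi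
  Pool.Agent.Helper873.PartTwo

open Pool.Agent.Helper873.KPoly (KR KA KA_pos KR_bounds KA_sq norm_al_mul_le norm_vs_le exists_R)
open Pool.Agent.W278.EM (SNeg zz)

/-- the point of the critical line -/
noncomputable def hl (t : ℝ) : ℂ := Pool.Agent.W278.EM.pt 0 0 t

lemma hl_eq (t : ℝ) : hl t = ((1 / 2 : ℝ) : ℂ) + (t : ℂ) * Complex.I := by
  unfold hl Pool.Agent.W278.EM.pt
  norm_num

lemma hl_re (t : ℝ) : 0 ≤ (hl t).re := by
  rw [hl_eq]
  simp

lemma al_mul_vs' (J a k : ℕ) (t : ℝ) : al J a k * vs (hl t) k = ((qq (2 * J) k : ℝ) : ℂ) *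
    Complex.exp ((((a : ℝ) / J - t) * Real.log (Nat.nth Nat.Prime k) : ℝ) * Complex.I) := by
  have h2 := two_le_p k
  have hp0 : (0 : ℝ) < (Nat.nth Nat.Prime k : ℝ) := by linarith
  have hpc : (Nat.nth Nat.Prime k : ℂ) ≠ 0 := by
    have : (Nat.nth Nat.Prime k : ℝ) ≠ 0 := hp0.ne'
    exact_mod_cast this
  rw [hl_eq]
  unfold al vs qq
  rw [Complex.cpow_def_of_ne_zero hpc]
  have hlog : Complex.log (Nat.nth Nat.Prime k : ℂ) = ((Real.log (Nat.nth Nat.Prime k) : ℝ) : ℂ) := by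
    rw [← Complex.ofReal_natCast, ← Complex.ofReal_log hp0.le]
  rw [hlog, Real.rpow_def_of_pos hp0, Real.rpow_def_of_pos hp0]
  have h3 : (2 : ℝ) / ((2 * J : ℕ) : ℝ) = 1 / J := by
    push_cast
    rw [mul_comm, ← div_div]
    rw [div_eq_mul_one_div, mul_comm, div_mul_eq_mul_div]
    by_cases hJ : (J : ℝ) = 0
    · rw [hJ]; simp
    · field_simp
  rw [h3]
  push_cast
  rw [← Complex.exp_add, ← Complex.exp_add, ← Complex.exp_add]
  congr 1
  ring

/-- lower bound for the kernel on the critical line -/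
lemma KA_lower' (J N a : ℕ) (hJ : 2 ≤ J)
    (hN : ((2 * J : ℕ) : ℝ) / 4 ≤ Z (Nat.nth Nat.Prime N) (2 / (2 * J : ℕ)))
    (t : ℝ) (ht : |(a : ℝ) / J - t| ≤ 1 / J) :
    1 / 2 * Real.log J - Real.log 2 - 32 ≤ Real.log (KA J N a (vs (hl t))) := by
  have hJ2 : (2 : ℝ) ≤ J := by exact_mod_cast hJ
  have hJ0 : (0 : ℝ) < J := by linarith
  have hq0 : ∀ k, 0 < 1 - qq J k := fun k => by have := qq_le_half J k; linarith
  have hq0' : ∀ k, 0 < 1 - qq (2 * J) k := fun k => by have := qq_le_half (2 * J) k; linarith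
  unfold KA
  have hne : ∀ k ∈ Finset.range N, Real.sqrt (1 - qq J k) *
      (1 / ‖1 - al J a k * vs (hl t) k‖) ≠ 0 := by
    intro k _
    have h1 := norm_al_mul_le J a k (vs (hl t) k) (norm_vs_le (hl t) (hl_re t) k)
    have h2 : 0 < ‖1 - al J a k * vs (hl t) k‖ := by
      have := norm_sub_norm_le (1 : ℂ) (al J a k * vs (hl t) k)
      rw [norm_one] at this
      linarith
    have := Real.sqrt_pos.2 (hq0 k)
    positivity
  rw [Real.log_prod hne]
  have hterm : ∀ k ∈ Finset.range N, 1 / 2 * Real.log (1 - qq J k) -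
      Real.log (1 - qq (2 * J) k) - 2 * (qq (2 * J) k *
      (1 / J * Real.log (Nat.nth Nat.Prime k)) ^ 2) ≤
      Real.log (Real.sqrt (1 - qq J k) * (1 / ‖1 - al J a k * vs (hl t) k‖)) := by
    intro k hk
    have hs := Real.sqrt_pos.2 (hq0 k)
    rw [al_mul_vs']
    set φ : ℝ := ((a : ℝ) / J - t) * Real.log (Nat.nth Nat.Prime k) with hφ
    have h1 := log_bound2 (qq (2 * J) k) φ (qq_pos (2 * J) k).le (qq_le_half (2 * J) k)
    have h2 : 0 < ‖1 - ((qq (2 * J) k : ℝ) : ℂ) * Complex.exp ((φ : ℂ) * Complex.I)‖ := by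
      have h3 := norm_sub_norm_le (1 : ℂ)
        (((qq (2 * J) k : ℝ) : ℂ) * Complex.exp ((φ : ℂ) * Complex.I))
      rw [norm_mul, Complex.norm_exp_ofReal_mul_I, mul_one, Complex.norm_real,
        Real.norm_of_nonneg (qq_pos (2 * J) k).le, norm_one] at h3
      have := hq0' k
      linarith
    rw [Real.log_mul hs.ne' (one_div_pos.2 h2).ne', Real.log_div one_ne_zero h2.ne',
      Real.log_one, Real.log_sqrt (hq0 k).le]
    have h4 : φ ^ 2 ≤ (1 / J * Real.log (Nat.nth Nat.Prime k)) ^ 2 := by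
      have hlog0 : 0 ≤ Real.log (Nat.nth Nat.Prime k : ℝ) :=
        Real.log_nonneg (by have := two_le_p k; linarith)
      rw [← sq_abs φ, hφ, abs_mul, abs_of_nonneg hlog0]
      gcongr
    have h5 : qq (2 * J) k * φ ^ 2 ≤ qq (2 * J) k * (1 / J * Real.log (Nat.nth Nat.Prime k)) ^ 2 :=
      mul_le_mul_of_nonneg_left h4 (qq_pos (2 * J) k).le
    linarith
  refine le_trans ?_ (Finset.sum_le_sum hterm)
  rw [Finset.sum_sub_distrib, Finset.sum_sub_distrib, ← Finset.mul_sum, ← Finset.mul_sum,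
    ← Real.log_prod (fun k _ => (hq0 k).ne'), ← Real.log_prod (fun k _ => (hq0' k).ne')]
  have h6 : ∀ J : ℕ, ∏ k ∈ Finset.range N, (1 - qq J k) =
      (Z (Nat.nth Nat.Prime N) (2 / J))⁻¹ := by
    intro J
    rw [← prod_Z, Nat.primeCounting'_nth_eq]; rfl
  rw [h6, h6, Real.log_inv, Real.log_inv]
  have h7 : Real.log (J / 2) ≤ Real.log (Z (Nat.nth Nat.Prime N) (2 / (2 * J : ℕ))) := by
    refine Real.log_le_log (by positivity) ?_
    refine le_trans (le_of_eq ?_) hN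
    push_cast
    ring
  have h7' : Real.log (Z (Nat.nth Nat.Prime N) (2 / J)) ≤ Real.log J := by
    refine Real.log_le_log (Z_pos _ _ (by positivity)) ?_
    refine (Z_upper _ _ (by positivity)).trans ?_
    rw [one_div_div]
    linarith
  have h8 : ∑ k ∈ Finset.range N,
      qq (2 * J) k * (1 / J * Real.log (Nat.nth Nat.Prime k)) ^ 2 ≤ 16 := by
    have h9 := sum_log_sq' (Nat.nth Nat.Prime N) (1 / (2 * J)) (by positivity) (by
      rw [div_le_one (by positivity)]; linarith)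
    rw [← sum_primes_eq, Nat.primeCounting'_nth_eq] at h9
    have h10 : ∑ k ∈ Finset.range N,
        qq (2 * J) k * (1 / J * Real.log (Nat.nth Nat.Prime k)) ^ 2 =
        4 * ∑ j ∈ Finset.range N, (1 / (2 * (J : ℝ)) * Real.log (Nat.nth Nat.Prime j)) ^ 2 *
          (Nat.nth Nat.Prime j : ℝ) ^ (-(1 + 2 * (1 / (2 * (J : ℝ))))) := by
      rw [Finset.mul_sum]
      refine Finset.sum_congr rfl fun k _ => ?_
      unfold qq
      have : (2 : ℝ) / ((2 * J : ℕ) : ℝ) = 2 * (1 / (2 * (J : ℝ))) := by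
        push_cast
        ring
      rw [this]
      have h11 : (1 / (2 * (J : ℝ)) * Real.log (Nat.nth Nat.Prime k)) ^ 2 =
          (1 / J * Real.log (Nat.nth Nat.Prime k)) ^ 2 / 4 := by
        ring
      rw [h11]
      ring
    rw [h10]
    linarith
  rw [Real.log_div hJ0.ne' (by norm_num)] at h7
  linarith

/-- lower bound for the random logarithm on the critical line -/
lemma lower_random' (J N R : ℕ) (hJ : 2 ≤ J)
    (hN : ((2 * J : ℕ) : ℝ) / 4 ≤ Z (Nat.nth Nat.Prime N) (2 / (2 * J : ℕ)))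
    (hR1 : (1 / 2 : ℝ) ≤ (1 - (3 / 4) ^ R) ^ N)
    (hR2 : (1 + (3 / 4) ^ R : ℝ) ^ N ≤ 2) (ρ : ℝ) (hρ : 0 < ρ) (t : ℝ) (ht : t ∈ Set.Icc (0 : ℝ) 1) :
    -34 ≤ ∫ θ, Real.log (max ‖FF J N R θ (vs (hl t))‖ ρ) ∂tor := by
  have hJ2 : (2 : ℝ) ≤ J := by exact_mod_cast hJ
  have hJ0 : (0 : ℝ) < J := by linarith
  obtain ⟨a, ha, hat⟩ : ∃ a < J, |(a : ℝ) / J - t| ≤ 1 / J := by
    by_cases h1 : t < 1
    · refine ⟨⌊t * J⌋₊, ?_, ?_⟩
      · rw [Nat.floor_lt (mul_nonneg ht.1 hJ0.le)]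
        nlinarith
      · have h2 := Nat.floor_le (mul_nonneg ht.1 hJ0.le)
        have h3 := Nat.lt_floor_add_one (t * J)
        have h4 : (⌊t * J⌋₊ : ℝ) / J - t = ((⌊t * J⌋₊ : ℝ) - t * J) / J := by field_simp
        rw [h4, abs_div, abs_of_pos hJ0]
        gcongr
        rw [abs_le]
        constructor <;> linarith
    · have h2 : t = 1 := le_antisymm ht.2 (not_lt.1 h1)
      refine ⟨J - 1, by omega, ?_⟩
      rw [h2, Nat.cast_sub (by omega)]
      have h4 : ((J : ℝ) - (1 : ℕ)) / J - 1 = -(1 / J) := by field_simp; push_cast; ring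
      rw [h4, abs_neg, abs_of_pos (by positivity)]
  have hre : 0 ≤ (hl t).re := hl_re t
  have hKA := KA_pos J N a (vs (hl t)) (norm_vs_le _ hre)
  have h1 := (KR_bounds J N R a hR1 hR2 (vs (hl t)) (norm_vs_le _ hre)).1
  have h2 := KA_lower' J N a hJ hN t hat
  have hsJ : 0 < Real.sqrt J := Real.sqrt_pos.2 hJ0
  have hx : KR J N R a (vs (hl t)) / (Real.sqrt J : ℂ) ≠ 0 := by
    rw [← norm_pos_iff, norm_div, Complex.norm_real, Real.norm_of_nonneg hsJ.le]
    have : 0 < ‖KR J N R a (vs (hl t))‖ := by linarith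
    positivity
  have h3 := cartan J (fun a => KR J N R a (vs (hl t)) / (Real.sqrt J : ℂ)) a ha hx ρ hρ
  refine le_trans ?_ h3
  have h4 : Real.log ‖KR J N R a (vs (hl t)) / (Real.sqrt J : ℂ)‖ =
      Real.log ‖KR J N R a (vs (hl t))‖ - 1 / 2 * Real.log J := by
    rw [norm_div, Complex.norm_real, Real.norm_of_nonneg hsJ.le,
      Real.log_div (by linarith) hsJ.ne', Real.log_sqrt hJ0.le]
    ring
  simp only [h4]
  have h5 : Real.log (KA J N a (vs (hl t)) / 2) ≤ Real.log ‖KR J N R a (vs (hl t))‖ :=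
    Real.log_le_log (by positivity) h1
  rw [Real.log_div hKA.ne' (by norm_num)] at h5
  have h7 := Real.log_two_lt_d9
  linarith

lemma continuous_vs_hl : Continuous fun t : ℝ => vs (hl t) := by
  refine continuous_pi fun k => ?_
  have hpc : (Nat.nth Nat.Prime k : ℂ) ≠ 0 := by
    exact_mod_cast (Nat.prime_nth_prime k).ne_zero
  simp only [hl_eq]
  unfold vs
  refine Continuous.const_cpow ?_ (Or.inl hpc)
  fun_prop

/-- lower bound for the random moments on the critical line -/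
lemma lower_moment (J N R : ℕ) (hJ : 2 ≤ J)
    (hN : ((2 * J : ℕ) : ℝ) / 4 ≤ Z (Nat.nth Nat.Prime N) (2 / (2 * J : ℕ)))
    (hR1 : (1 / 2 : ℝ) ≤ (1 - (3 / 4) ^ R) ^ N)
    (hR2 : (1 + (3 / 4) ^ R : ℝ) ^ N ≤ 2) (p : ℝ) (hp : 1 ≤ p) (t : ℝ)
    (ht : t ∈ Set.Icc (0 : ℝ) 1) :
    Real.exp (-34 * p) / 2 ≤ ∫ θ, ‖FF J N R θ (vs (hl t))‖ ^ p ∂tor := by
  have hp0 : 0 < p := by linarith
  set ρ : ℝ := Real.exp (-34) / 2 with hρ
  have hρ0 : 0 < ρ := by positivity
  have h1 := lower_random' J N R hJ hN hR1 hR2 ρ hρ0 t ht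
  have hcF : Continuous fun θ : ℕ → UnitAddCircle => ‖FF J N R θ (vs (hl t))‖ :=
    ((continuous_FF J N R).comp (continuous_id.prodMk continuous_const)).norm
  have hmax : ∀ θ : ℕ → UnitAddCircle, 0 < max ‖FF J N R θ (vs (hl t))‖ ρ :=
    fun θ => lt_of_lt_of_le hρ0 (le_max_right _ _)
  have hlog : Continuous fun θ : ℕ → UnitAddCircle =>
      Real.log (max ‖FF J N R θ (vs (hl t))‖ ρ) :=
    Continuous.log (hcF.max continuous_const) fun θ => (hmax θ).ne'
  have hpow : Continuous fun θ : ℕ → UnitAddCircle => ‖FF J N R θ (vs (hl t))‖ ^ p :=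
    hcF.rpow_const fun θ => Or.inr hp0.le
  have h2 : ∀ θ : ℕ → UnitAddCircle,
      Real.exp (-34 * p) * (1 + 34 * p + p * Real.log (max ‖FF J N R θ (vs (hl t))‖ ρ)) ≤
        ‖FF J N R θ (vs (hl t))‖ ^ p + ρ ^ p := by
    intro θ
    have h3 : (max ‖FF J N R θ (vs (hl t))‖ ρ) ^ p ≤ ‖FF J N R θ (vs (hl t))‖ ^ p + ρ ^ p := by
      rcases le_total ‖FF J N R θ (vs (hl t))‖ ρ with h | h
      · rw [max_eq_right h]
        have : 0 ≤ ‖FF J N R θ (vs (hl t))‖ ^ p := Real.rpow_nonneg (norm_nonneg _) _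
        linarith
      · rw [max_eq_left h]
        have : 0 ≤ ρ ^ p := Real.rpow_nonneg hρ0.le _
        linarith
    refine le_trans ?_ h3
    rw [Real.rpow_def_of_pos (hmax θ)]
    set x := Real.log (max ‖FF J N R θ (vs (hl t))‖ ρ) with hx
    have h4 : Real.exp (x * p) = Real.exp (-34 * p) * Real.exp (34 * p + p * x) := by
      rw [← Real.exp_add]
      congr 1
      ring
    rw [h4]
    refine mul_le_mul_of_nonneg_left ?_ (Real.exp_pos _).le
    have := Real.add_one_le_exp (34 * p + p * x)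
    linarith
  have h5 := integral_mono (μ := (tor : Measure (ℕ → UnitAddCircle)))
    (((integrable_const (1 + 34 * p)).add ((integrable_torR hlog).const_mul p)).const_mul
      (Real.exp (-34 * p))) ((integrable_torR hpow).add (integrable_const (ρ ^ p))) h2
  rw [integral_const_mul] at h5
  have h6 : ∫ θ, ((1 + 34 * p) + p * Real.log (max ‖FF J N R θ (vs (hl t))‖ ρ)) ∂tor =
      (1 + 34 * p) + p * ∫ θ, Real.log (max ‖FF J N R θ (vs (hl t))‖ ρ) ∂tor := by
    rw [integral_add (integrable_const _) ((integrable_torR hlog).const_mul p),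
      integral_const_mul]
    simp
  have h7 : ∫ θ, (‖FF J N R θ (vs (hl t))‖ ^ p + ρ ^ p) ∂tor =
      (∫ θ, ‖FF J N R θ (vs (hl t))‖ ^ p ∂tor) + ρ ^ p := by
    rw [integral_add (integrable_torR hpow) (integrable_const _)]
    simp
  have h5' : Real.exp (-34 * p) *
      ∫ θ, ((1 + 34 * p) + p * Real.log (max ‖FF J N R θ (vs (hl t))‖ ρ)) ∂tor ≤
      ∫ θ, (‖FF J N R θ (vs (hl t))‖ ^ p + ρ ^ p) ∂tor := h5
  rw [h6, h7] at h5'
  have h8 : Real.exp (-34 * p) ≤ Real.exp (-34 * p) *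
      ((1 + 34 * p) + p * ∫ θ, Real.log (max ‖FF J N R θ (vs (hl t))‖ ρ) ∂tor) := by
    have h9 : 1 ≤ (1 + 34 * p) + p * ∫ θ, Real.log (max ‖FF J N R θ (vs (hl t))‖ ρ) ∂tor := by
      nlinarith
    have := Real.exp_pos (-34 * p)
    nlinarith
  have h10 : ρ ^ p ≤ Real.exp (-34 * p) / 2 := by
    rw [hρ, Real.div_rpow (Real.exp_pos _).le (by norm_num), ← Real.exp_mul]
    have h11 : (2 : ℝ) ≤ 2 ^ p := by
      calc (2 : ℝ) = 2 ^ (1 : ℝ) := (Real.rpow_one 2).symm
        _ ≤ 2 ^ p := Real.rpow_le_rpow_of_exponent_le (by norm_num) hp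
    exact div_le_div_of_nonneg_left (Real.exp_pos _).le (by norm_num) h11
  linarith

/-- moments of random sums -/
lemma moment_le (J : ℕ) (x : ℕ → ℂ) (M : ℝ) (hM : 0 < M)
    (h : ∑ a ∈ Finset.range J, ‖x a‖ ^ 2 ≤ M) (p : ℝ) (hp : 0 < p) (hp2 : p ≤ 2) :
    ∫ θ, ‖rs J x θ‖ ^ p ∂tor ≤ M ^ (p / 2) := by
  have hMp : 0 < M ^ (p / 2) := Real.rpow_pos_of_pos hM _
  have h1 : ∀ θ, ‖rs J x θ‖ ^ p ≤ M ^ (p / 2) * ((1 - p / 2) + p / 2 * (‖rs J x θ‖ ^ 2 / M)) := by
    intro θ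
    set g := ‖rs J x θ‖ with hg
    have hg0 : 0 ≤ g := norm_nonneg _
    have h2 := Real.geom_mean_le_arith_mean2_weighted (w₁ := 1 - p / 2) (w₂ := p / 2)
      (p₁ := 1) (p₂ := g ^ 2 / M) (by linarith) (by linarith) zero_le_one (by positivity)
      (by ring)
    rw [Real.one_rpow, one_mul, mul_one] at h2
    have h3 : g ^ p = M ^ (p / 2) * (g ^ 2 / M) ^ (p / 2) := by
      rw [Real.div_rpow (by positivity) hM.le, mul_div_cancel₀ _ hMp.ne', ← Real.rpow_natCast,
        ← Real.rpow_mul hg0]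
      congr 1
      push_cast
      ring
    rw [h3]
    exact mul_le_mul_of_nonneg_left h2 hMp.le
  have hi : Integrable (fun θ => ‖rs J x θ‖ ^ 2) tor :=
    integrable_torR ((continuous_rs J x).norm.pow 2)
  have hip : Integrable (fun θ => ‖rs J x θ‖ ^ p) tor :=
    integrable_torR ((continuous_rs J x).norm.rpow_const fun θ => Or.inr hp.le)
  have h4 := integral_mono hip
    (((integrable_const (1 - p / 2)).add ((hi.div_const M).const_mul (p / 2))).const_mul
      (M ^ (p / 2))) h1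
  refine h4.trans ?_
  rw [integral_const_mul]
  have h5 : ∫ θ, ((1 - p / 2) + p / 2 * (‖rs J x θ‖ ^ 2 / M)) ∂tor =
      (1 - p / 2) + p / 2 * ((∑ a ∈ Finset.range J, ‖x a‖ ^ 2) / M) := by
    rw [integral_add (integrable_const _) ((hi.div_const M).const_mul (p / 2)),
      integral_const_mul, integral_div, integral_sq]
    simp
  have h6 : (∑ a ∈ Finset.range J, ‖x a‖ ^ 2) / M ≤ 1 := (div_le_one hM).2 h
  have h7 : (1 - p / 2) + p / 2 * ((∑ a ∈ Finset.range J, ‖x a‖ ^ 2) / M) ≤ 1 := by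
    nlinarith
  calc M ^ (p / 2) * ∫ θ, ((1 - p / 2) + p / 2 * (‖rs J x θ‖ ^ 2 / M)) ∂tor
      = M ^ (p / 2) * ((1 - p / 2) + p / 2 * ((∑ a ∈ Finset.range J, ‖x a‖ ^ 2) / M)) := by rw [h5]
    _ ≤ M ^ (p / 2) * 1 := mul_le_mul_of_nonneg_left h7 hMp.le
    _ = M ^ (p / 2) := mul_one _

/-- upper bound for the random moments on the torus -/
lemma upper_moment (J N R : ℕ) (hJ : 1 ≤ J) (hR1 : (1 / 2 : ℝ) ≤ (1 - (3 / 4) ^ R) ^ N)
    (hR2 : (1 + (3 / 4) ^ R : ℝ) ^ N ≤ 2) (p : ℝ) (hp : 1 ≤ p) (hp2 : p < 2) :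
    ∫ θ, ∫ z, ‖FF J N R θ (fun k => zet (z k))‖ ^ p ∂tor ∂tor ≤
      4 * ∫ z, (MM J N z) ^ (p / 2) ∂tor := by
  have hJ0 : (0 : ℝ) < J := by exact_mod_cast hJ
  have hp0 : 0 < p := by linarith
  have hcont : Continuous fun q : (ℕ → UnitAddCircle) × (ℕ → UnitAddCircle) =>
      ‖FF J N R q.1 (fun k => zet (q.2 k))‖ ^ p :=
    (((continuous_FF J N R).comp
      (continuous_fst.prodMk (continuous_zz.comp continuous_snd))).norm).rpow_const
      fun θ => Or.inr hp0.le
  have hint : Integrable (fun q : (ℕ → UnitAddCircle) × (ℕ → UnitAddCircle) =>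
      ‖FF J N R q.1 (fun k => zet (q.2 k))‖ ^ p) (tor.prod tor) :=
    hcont.integrable_of_hasCompactSupport (HasCompactSupport.of_compactSpace _)
  rw [integral_integral_swap hint, ← integral_const_mul]
  have hMMc : Continuous fun z => (MM J N z) ^ (p / 2) :=
    (continuous_MM J N).rpow_const fun z => Or.inr (by linarith)
  refine integral_mono hint.integral_prod_right
    ((integrable_torR hMMc).const_mul 4) fun z => ?_
  have h1 : ∑ a ∈ Finset.range J, ‖KR J N R a (fun k => zet (z k)) / (Real.sqrt J : ℂ)‖ ^ 2 ≤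
      4 * MM J N z := by
    unfold MM
    rw [← mul_assoc, Finset.mul_sum]
    refine Finset.sum_le_sum fun a _ => ?_
    have h2 := (KR_bounds J N R a hR1 hR2 (fun k => zet (z k)) fun k => (norm_zet _).le).2
    have h3 := KA_sq J N a z
    have h4 := (KA_pos J N a (fun k => zet (z k)) fun k => (norm_zet _).le).le
    rw [norm_div, Complex.norm_real, Real.norm_of_nonneg (Real.sqrt_nonneg _), div_pow,
      Real.sq_sqrt hJ0.le, ← h3, div_eq_inv_mul]
    have h5 : ‖KR J N R a (fun k => zet (z k))‖ ^ 2 ≤ (2 * KA J N a (fun k => zet (z k))) ^ 2 :=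
      pow_le_pow_left₀ (norm_nonneg _) h2 2
    calc (J : ℝ)⁻¹ * ‖KR J N R a (fun k => zet (z k))‖ ^ 2
        ≤ (J : ℝ)⁻¹ * (2 * KA J N a (fun k => zet (z k))) ^ 2 := by gcongr
      _ = _ := by ring
  have hMM := MM_pos J N hJ z
  have h6 := moment_le J (fun a => KR J N R a (fun k => zet (z k)) / (Real.sqrt J : ℂ))
    (4 * MM J N z) (by positivity) h1 p hp0 hp2.le
  refine h6.trans ?_
  rw [Real.mul_rpow (by norm_num) hMM.le]
  refine mul_le_mul_of_nonneg_right ?_ (Real.rpow_nonneg hMM.le _)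
  calc (4 : ℝ) ^ (p / 2) ≤ 4 ^ (1 : ℝ) :=
        Real.rpow_le_rpow_of_exponent_le (by norm_num) (by linarith)
    _ = 4 := Real.rpow_one 4

/-- the moments of the averaged weights are small -/
lemma small_moment (p : ℝ) (hp : 1 ≤ p) (hp2 : p < 2) (τ : ℝ) (hτ : 0 < τ) :
    ∃ N0 b : ℕ, 1 ≤ b ∧ ∀ m : ℕ, 2 ≤ m → ∀ N ≥ N0,
      ∫ z, (MM (b * m) N z) ^ (p / 2) ∂tor ≤ τ := by
  set μ : ℝ := τ / 2 with hμ
  have hμ0 : 0 < μ := by positivity
  set lam : ℝ := μ ^ (-(p - 1) / (2 - p)) with hlam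
  have hlam0 : 0 < lam := Real.rpow_pos_of_pos hμ0 _
  obtain ⟨N0, b, hb, hsm⟩ := small_sqrt (τ / (2 * lam)) (by positivity)
  refine ⟨N0, b, hb, fun m hm N hN => ?_⟩
  have hJ : 1 ≤ b * m := by nlinarith
  have h1 := hsm m hm N hN
  have hpt : ∀ z, (MM (b * m) N z) ^ (p / 2) ≤
      (2 - p) * (lam * Real.sqrt (MM (b * m) N z)) + (p - 1) * (μ * MM (b * m) N z) := by
    intro z
    have hM := MM_pos (b * m) N hJ z
    set x := MM (b * m) N z with hx
    have h2 := Real.geom_mean_le_arith_mean2_weighted (w₁ := 2 - p) (w₂ := p - 1)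
      (p₁ := lam * Real.sqrt x) (p₂ := μ * x) (by linarith) (by linarith) (by positivity)
      (by positivity) (by ring)
    refine le_trans (le_of_eq ?_) h2
    rw [Real.mul_rpow hlam0.le (Real.sqrt_nonneg _), Real.mul_rpow hμ0.le hM.le, hlam,
      ← Real.rpow_mul hμ0.le, Real.sqrt_eq_rpow, ← Real.rpow_mul hM.le]
    have h3 : -(p - 1) / (2 - p) * (2 - p) = -(p - 1) := by
      have : 2 - p ≠ 0 := by linarith
      field_simp
    rw [h3]
    calc x ^ (p / 2) = (μ ^ (-(p - 1)) * μ ^ (p - 1)) * (x ^ (1 / 2 * (2 - p)) * x ^ (p - 1)) := by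
          rw [← Real.rpow_add hμ0, ← Real.rpow_add hM]
          have e1 : -(p - 1) + (p - 1) = 0 := by ring
          have e2 : 1 / 2 * (2 - p) + (p - 1) = p / 2 := by ring
          rw [e1, e2, Real.rpow_zero, one_mul]
      _ = _ := by ring
  have hMMc : Continuous fun z => (MM (b * m) N z) ^ (p / 2) :=
    (continuous_MM (b * m) N).rpow_const fun z => Or.inr (by linarith)
  have hi1 : Integrable (fun z => Real.sqrt (MM (b * m) N z)) tor :=
    integrable_torR (Real.continuous_sqrt.comp (continuous_MM _ N))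
  have hi2 : Integrable (fun z => MM (b * m) N z) tor := integrable_torR (continuous_MM _ N)
  have h4 := integral_mono (integrable_torR hMMc)
    (((hi1.const_mul lam).const_mul (2 - p)).add ((hi2.const_mul μ).const_mul (p - 1))) hpt
  refine h4.trans ?_
  simp only [Pi.add_apply]
  rw [integral_add ((hi1.const_mul lam).const_mul (2 - p)) ((hi2.const_mul μ).const_mul (p - 1)),
    integral_const_mul, integral_const_mul, integral_const_mul, integral_const_mul,
    integral_MM _ _ hJ]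
  have h5 : lam * ∫ z, Real.sqrt (MM (b * m) N z) ∂tor ≤ τ / 2 := by
    calc lam * ∫ z, Real.sqrt (MM (b * m) N z) ∂tor ≤ lam * (τ / (2 * lam)) := by gcongr
      _ = τ / 2 := by field_simp
  have h6 : 0 ≤ lam * ∫ z, Real.sqrt (MM (b * m) N z) ∂tor :=
    mul_nonneg hlam0.le (integral_nonneg fun z => Real.sqrt_nonneg _)
  have h7 : (2 - p) * (lam * ∫ z, Real.sqrt (MM (b * m) N z) ∂tor) ≤ 1 * (τ / 2) :=
    mul_le_mul (by linarith) h5 h6 zero_le_one
  have h8 : (p - 1) * (μ * 1) ≤ 1 * (τ / 2) := by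
    rw [hμ, mul_one]
    exact mul_le_mul_of_nonneg_right (by linarith) (by positivity)
  linarith

/-- **Failure of the local embedding for `1 ≤ p < 2`.** -/
theorem sneg : SNeg := by
  intro p hp hp2 A
  have hp0 : 0 < p := by linarith
  set κ : ℝ := Real.exp (-34 * p) / 2 with hκ
  have hκ0 : 0 < κ := by positivity
  set τ : ℝ := κ / (8 * (|A| + 1)) with hτ
  have hA1 : 0 < |A| + 1 := by positivity
  have hτ0 : 0 < τ := by positivity
  obtain ⟨N0, b, hb, hsm⟩ := small_moment p hp hp2 τ hτ0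
  set J := b * 2 with hJdef
  have hJ2 : 2 ≤ J := by omega
  obtain ⟨N1, hN1⟩ := exists_N1 (2 * J) (by omega)
  set N := max N0 N1 with hN
  have hsmall := hsm 2 le_rfl N (le_max_left _ _)
  rw [← hJdef] at hsmall
  have hZ := hN1 N (le_max_right _ _)
  obtain ⟨R, hR1, hR2⟩ := exists_R N
  set Φ : (ℕ → UnitAddCircle) → ℝ := fun θ =>
    ∫ z, ‖FF J N R θ (fun k => zet (z k))‖ ^ p ∂tor with hΦ
  set ν : Measure ℝ := volume.restrict (Set.Ioc (0 : ℝ) 1) with hν
  have : IsProbabilityMeasure ν := ⟨by rw [hν, Measure.restrict_apply_univ]; simp⟩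
  set Ψ : (ℕ → UnitAddCircle) → ℝ := fun θ =>
    ∫ t, ‖FF J N R θ (vs (hl t))‖ ^ p ∂ν with hΨ
  have hc1 : Continuous fun q : (ℕ → UnitAddCircle) × (ℕ → UnitAddCircle) =>
      ‖FF J N R q.1 (fun k => zet (q.2 k))‖ ^ p :=
    (((continuous_FF J N R).comp
      (continuous_fst.prodMk (continuous_zz.comp continuous_snd))).norm).rpow_const
      fun θ => Or.inr hp0.le
  have hint1 : Integrable (fun q : (ℕ → UnitAddCircle) × (ℕ → UnitAddCircle) =>
      ‖FF J N R q.1 (fun k => zet (q.2 k))‖ ^ p) (tor.prod tor) :=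
    hc1.integrable_of_hasCompactSupport (HasCompactSupport.of_compactSpace _)
  have hc2 : Continuous fun q : (ℕ → UnitAddCircle) × ℝ =>
      ‖FF J N R q.1 (vs (hl q.2))‖ ^ p :=
    (((continuous_FF J N R).comp (continuous_fst.prodMk
      (continuous_vs_hl.comp continuous_snd))).norm).rpow_const fun θ => Or.inr hp0.le
  have hint2 : Integrable (fun q : (ℕ → UnitAddCircle) × ℝ =>
      ‖FF J N R q.1 (vs (hl q.2))‖ ^ p) (tor.prod ν) := by
    have h1 : tor.prod ν = (tor.prod volume).restrict (Set.univ ×ˢ Set.Ioc (0 : ℝ) 1) := by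
      rw [hν, ← Measure.prod_restrict, Measure.restrict_univ]
    rw [h1]
    have h2 : IntegrableOn (fun q : (ℕ → UnitAddCircle) × ℝ =>
        ‖FF J N R q.1 (vs (hl q.2))‖ ^ p) (Set.univ ×ˢ Set.Icc (0 : ℝ) 1)
        (tor.prod volume) :=
      hc2.continuousOn.integrableOn_compact (isCompact_univ.prod isCompact_Icc)
    exact h2.mono_set (Set.prod_mono le_rfl Set.Ioc_subset_Icc_self)
  have hIΦ : ∫ θ, Φ θ ∂tor ≤ 4 * τ := by
    have := upper_moment J N R (by omega) hR1 hR2 p hp hp2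
    linarith
  have hIΨ : κ ≤ ∫ θ, Ψ θ ∂tor := by
    rw [hΨ]
    simp only
    rw [integral_integral_swap hint2]
    have h1 : ∫ _, κ ∂ν ≤ ∫ t, ∫ θ, ‖FF J N R θ (vs (hl t))‖ ^ p ∂tor ∂ν := by
      refine integral_mono_ae (integrable_const _) hint2.integral_prod_right ?_
      rw [Filter.EventuallyLE, hν, ae_restrict_iff' measurableSet_Ioc]
      refine Filter.Eventually.of_forall fun t ht => ?_
      exact lower_moment J N R hJ2 hZ hR1 hR2 p hp t (Set.Ioc_subset_Icc_self ht)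
    simpa using h1
  have hΦi : Integrable Φ tor := hint1.integral_prod_left
  have hΨi : Integrable Ψ tor := hint2.integral_prod_left
  obtain ⟨θ, hθ⟩ : ∃ θ, κ / 2 ≤ Ψ θ - |A| * Φ θ := by
    have hi : Integrable (fun θ => Ψ θ - |A| * Φ θ) tor := hΨi.sub (hΦi.const_mul _)
    obtain ⟨θ, hθ⟩ := exists_integral_le hi
    refine ⟨θ, le_trans ?_ hθ⟩
    rw [integral_sub hΨi (hΦi.const_mul _), integral_const_mul]
    have h1 : |A| * ∫ θ, Φ θ ∂tor ≤ (|A| + 1) * (4 * τ) := by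
      have h2 : 0 ≤ ∫ θ, Φ θ ∂tor := integral_nonneg fun θ => integral_nonneg fun z =>
        Real.rpow_nonneg (norm_nonneg _) _
      exact mul_le_mul (by linarith) hIΦ h2 hA1.le
    have h3 : (|A| + 1) * (4 * τ) = κ / 2 := by
      rw [hτ]
      field_simp
      ring
    linarith
  obtain ⟨c, hc⟩ := isP_FF J N R θ 1
  have hc' : ∀ w, poly c w = FF J N R θ w := fun w => by rw [← hc w]; exact one_mul _
  refine ⟨c, ?_⟩
  have h1 : ∫ t in (0 : ℝ)..1, ‖poly c (vs (Pool.Agent.W278.EM.pt 0 0 t))‖ ^ p = Ψ θ := by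
    rw [intervalIntegral.integral_of_le zero_le_one, hΨ]
    simp only [hc']
    rfl
  have h2 : ∫ z, ‖poly c (zz z)‖ ^ p ∂tor = Φ θ := by
    rw [hΦ]
    simp only [hc']
    rfl
  rw [h1, h2]
  have h3 : 0 ≤ Φ θ := integral_nonneg fun z => Real.rpow_nonneg (norm_nonneg _) _
  have h4 : A * Φ θ ≤ |A| * Φ θ := mul_le_mul_of_nonneg_right (le_abs_self A) h3
  linarith

end Pool.Agent.W918.EM.Neg
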